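import Mathlib
import Pool.Agent.Helper43.RK.StT

set_option autoImplicit false

namespace Pool.Agent.Helper25.RK

open Pool.Agent.Helper43.RK

section Target

variable {K : Type} [Field K] [CharP K 2]

omit [CharP K 2] in
/-- inverse transpose -/
def tiFun (M : GL (Fin 3) K) : GL (Fin 3) K where
  val := ((M⁻¹ : GL (Fin 3) K) : Matrix (Fin 3) (Fin 3) K).transpose
  inv := (M : Matrix (Fin 3) (Fin 3) K).transpose
  val_inv := by
    rw [← Matrix.transpose_mul, Units.mul_inv, Matrix.transpose_one]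
  inv_val := by
    rw [← Matrix.transpose_mul, Units.inv_mul, Matrix.transpose_one]

omit [CharP K 2] in
theorem ti_mul (M N : GL (Fin 3) K) : tiFun (M * N) = tiFun M * tiFun N := by
  apply Units.ext
  show ((((M * N)⁻¹ : GL (Fin 3) K) : Matrix (Fin 3) (Fin 3) K)).transpose =
    ((M⁻¹ : GL (Fin 3) K) : Matrix (Fin 3) (Fin 3) K).transpose *
    ((N⁻¹ : GL (Fin 3) K) : Matrix (Fin 3) (Fin 3) K).transpose
  rw [mul_inv_rev, Units.val_mul, Matrix.transpose_mul]

/-- inverse transpose as a homomorphism -/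
def ti : GL (Fin 3) K →* GL (Fin 3) K := MonoidHom.mk' tiFun ti_mul

omit [CharP K 2] in
theorem ti_val (M : GL (Fin 3) K) : ((ti M : GL (Fin 3) K) : Matrix (Fin 3) (Fin 3) K) =
    ((M⁻¹ : GL (Fin 3) K) : Matrix (Fin 3) (Fin 3) K).transpose := rfl

omit [CharP K 2] in
theorem ti_ti (M : GL (Fin 3) K) : ti (ti M) = M := by
  apply Units.ext
  rw [ti_val, ← map_inv, ti_val, inv_inv, Matrix.transpose_transpose]

theorem two0 : (1 : K) + 1 = 0 := CharTwo.add_self_eq_zero 1

/-- the Gram matrix as an element of `GL` -/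
def Jg : GL (Fin 3) K where
  val := mJ
  inv := !![1, 1, 0; 1, 0, 0; 0, 0, 1]
  val_inv := by
    have h := two0 (K := K)
    ext i j
    fin_cases i <;> fin_cases j <;> simp [mJ, Matrix.mul_apply, Fin.sum_univ_three, h]
  inv_val := by
    have h := two0 (K := K)
    ext i j
    fin_cases i <;> fin_cases j <;> simp [mJ, Matrix.mul_apply, Fin.sum_univ_three, h]

theorem Jg_val : ((Jg : GL (Fin 3) K) : Matrix (Fin 3) (Fin 3) K) = mJ := rfl

theorem ti_J : ti (Jg : GL (Fin 3) K) = Jg⁻¹ := by
  rw [← inv_inj, ← map_inv, inv_inv]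
  apply Units.ext
  rw [ti_val, inv_inv, Jg_val]
  ext i j
  fin_cases i <;> fin_cases j <;> simp [mJ]

theorem winv_aux (M : GL (Fin 3) K) : Jg⁻¹ * ti (Jg⁻¹ * ti M * Jg) * Jg = M := by
  rw [map_mul, map_mul, map_inv, ti_J, ti_ti]
  group

/-- the automorphism `w` -/
def wA : MulAut (GL (Fin 3) K) where
  toFun := fun M => Jg⁻¹ * ti M * Jg
  invFun := fun M => Jg⁻¹ * ti M * Jg
  left_inv := winv_aux
  right_inv := winv_aux
  map_mul' := by
    intro M N
    rw [map_mul]
    group

theorem wA_app (M : GL (Fin 3) K) : wA M = Jg⁻¹ * ti M * Jg := rfl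

/-- the matrix `Q` as an element of `GL` -/
def QQ (x : K) : GL (Fin 3) K where
  val := mQ x
  inv := mQ x
  val_inv := by
    have h : x + x = 0 := CharTwo.add_self_eq_zero x
    ext i j
    fin_cases i <;> fin_cases j <;> simp [mQ, Matrix.mul_apply, Fin.sum_univ_three, h]
  inv_val := by
    have h : x + x = 0 := CharTwo.add_self_eq_zero x
    ext i j
    fin_cases i <;> fin_cases j <;> simp [mQ, Matrix.mul_apply, Fin.sum_univ_three, h]

theorem QQ_val (x : K) : ((QQ x : GL (Fin 3) K) : Matrix (Fin 3) (Fin 3) K) = mQ x := rfl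

theorem QQ_mul (x y : K) : QQ x * QQ y = QQ (x + y) := by
  apply Units.ext
  rw [Units.val_mul, QQ_val, QQ_val, QQ_val]
  ext i j
  fin_cases i <;> fin_cases j <;> simp [mQ, Matrix.mul_apply, Fin.sum_univ_three, add_comm]

theorem wA_QQ (x : K) : wA (QQ x) = QQ x := by
  rw [wA_app, mul_assoc, inv_mul_eq_iff_eq_mul]
  have hx : x + x = 0 := CharTwo.add_self_eq_zero x
  have h1 : (QQ x)⁻¹ = QQ x := by
    rw [inv_eq_iff_mul_eq_one, QQ_mul, hx]
    apply Units.ext
    rw [QQ_val]
    ext i j
    fin_cases i <;> fin_cases j <;> simp [mQ]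
  apply Units.ext
  rw [Units.val_mul, Units.val_mul, ti_val, h1, QQ_val, Jg_val]
  ext i j
  fin_cases i <;> fin_cases j <;> simp [mQ, mJ, Matrix.mul_apply, Fin.sum_univ_three, add_comm]

/-- entrywise application of a power of Frobenius -/
noncomputable def FA [Finite K] : MulAut (GL (Fin 3) K) :=
  Units.mapEquiv (RingEquiv.mapMatrix (m := Fin 3) (frobeniusEquiv K 2)).toMulEquiv

theorem FA_val [Finite K] (M : GL (Fin 3) K) :
    ((FA M : GL (Fin 3) K) : Matrix (Fin 3) (Fin 3) K) =
      (M : Matrix (Fin 3) (Fin 3) K).map (fun x => x ^ 2) := rfl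

theorem FA_ti [Finite K] (M : GL (Fin 3) K) : FA (ti M) = ti (FA M) := by
  apply Units.ext
  rw [FA_val, ti_val, ti_val, ← map_inv, FA_val]
  rfl

theorem FA_J [Finite K] : FA (Jg : GL (Fin 3) K) = Jg := by
  apply Units.ext
  rw [FA_val, Jg_val]
  ext i j
  fin_cases i <;> fin_cases j <;> simp [mJ]

theorem FA_QQ [Finite K] (x : K) : FA (QQ x) = QQ (x ^ 2) := by
  apply Units.ext
  rw [FA_val, QQ_val, QQ_val]
  ext i j
  fin_cases i <;> fin_cases j <;> simp [mQ]

theorem FA_wA [Finite K] (M : GL (Fin 3) K) : FA (wA M) = wA (FA M) := by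
  rw [wA_app, wA_app, map_mul, map_mul, map_inv, FA_J, FA_ti]

theorem FA_pow [Finite K] (m : ℕ) (M : GL (Fin 3) K) :
    (((FA ^ m) M : GL (Fin 3) K) : Matrix (Fin 3) (Fin 3) K) =
      (M : Matrix (Fin 3) (Fin 3) K).map (fun x => x ^ (2 ^ m)) := by
  induction m with
  | zero =>
    rw [pow_zero]
    ext i j
    simp
  | succ m ih =>
    rw [pow_succ', MulAut.mul_apply, FA_val, ih]
    ext i j
    simp only [Matrix.map_apply]
    rw [← pow_mul, ← pow_succ]

theorem aut_conj (α : MulAut (GL (Fin 3) K)) (M : GL (Fin 3) K) :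
    α * MulAut.conj M = MulAut.conj (α M) * α := by
  ext1 N
  simp only [MulAut.mul_apply, MulAut.conj_apply, map_mul, map_inv]

/-- the automorphism `φ` -/
noncomputable def phA [Finite K] (d : K) : MulAut (GL (Fin 3) K) := MulAut.conj (QQ d) * FA

theorem phA_app [Finite K] (d : K) (M : GL (Fin 3) K) :
    phA d M = QQ d * FA M * (QQ d)⁻¹ := rfl

theorem phA_pow [Finite K] (d : K) (m : ℕ) :
    phA d ^ m = MulAut.conj (QQ (∑ i ∈ Finset.range m, d ^ (2 ^ i))) * FA ^ m := by
  induction m with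
  | zero =>
    have h : QQ (0 : K) = 1 := by
      apply Units.ext
      rw [QQ_val]
      ext i j
      fin_cases i <;> fin_cases j <;> simp [mQ]
    simp [h]
  | succ m ih =>
    rw [pow_succ', ih, phA]
    calc MulAut.conj (QQ d) * FA * (MulAut.conj (QQ (∑ i ∈ Finset.range m, d ^ (2 ^ i))) * FA ^ m)
        = MulAut.conj (QQ d) * (FA * MulAut.conj (QQ (∑ i ∈ Finset.range m, d ^ (2 ^ i)))) * FA ^ m := by
          simp only [mul_assoc]
      _ = MulAut.conj (QQ d) * (MulAut.conj (QQ ((∑ i ∈ Finset.range m, d ^ (2 ^ i)) ^ 2)) * FA) * FA ^ m := by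
          rw [aut_conj, FA_QQ]
      _ = MulAut.conj (QQ d * QQ ((∑ i ∈ Finset.range m, d ^ (2 ^ i)) ^ 2)) * (FA * FA ^ m) := by
          rw [map_mul]; simp only [mul_assoc]
      _ = _ := by
          rw [QQ_mul, ← pow_succ', Finset.sum_range_succ', sum_pow_char (p := 2)]
          congr 3
          rw [add_comm]
          congr 1
          · apply Finset.sum_congr rfl
            intro i _
            rw [← pow_mul, ← pow_succ]
          · simp

theorem wA_sq : (wA : MulAut (GL (Fin 3) K)) * wA = 1 := by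
  ext1 M
  rw [MulAut.mul_apply, MulAut.one_apply]
  exact winv_aux M

end Target

/-- TA -/
theorem hTA : StTA := by
  intro n d hn hd
  have hn0 : n ≠ 0 := by rintro rfl; simp at hn
  haveI : Fact (Nat.Prime 2) := ⟨Nat.prime_two⟩
  haveI : Finite (GaloisField 2 n) := inferInstance
  haveI : Fintype (GaloisField 2 n) := Fintype.ofFinite _
  have hcard : Fintype.card (GaloisField 2 n) = 2 ^ n := by
    rw [← Nat.card_eq_fintype_card]
    exact GaloisField.card 2 n hn0
  refine ⟨MulAut (GL (Fin 3) (GaloisField 2 n)), inferInstance, ⟨?_⟩⟩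
  refine
    { κ := MulAut.conj
      w := wA
      φ := phA d
      ww := wA_sq
      wφ := ?_
      ker := ?_
      hw := ?_
      hφ := ?_
      φn := ?_ }
  · ext1 M
    rw [MulAut.mul_apply, MulAut.mul_apply, phA_app, phA_app, map_mul, map_mul, map_inv, wA_QQ, FA_wA]
  · intro M
    constructor
    · intro h N
      have h1 := congrArg (fun α : MulAut (GL (Fin 3) (GaloisField 2 n)) => α N) h
      simp only [MulAut.conj_apply, MulAut.one_apply] at h1
      calc M * N = M * N * M⁻¹ * M := by group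
        _ = N * M := by rw [h1]
    · intro h
      ext1 N
      rw [MulAut.conj_apply, MulAut.one_apply, h N]
      group
  · intro M N h
    rw [aut_conj, mul_inv_cancel_right]
    congr 1
    rw [wA_app, mul_assoc, inv_mul_eq_iff_eq_mul]
    apply Units.ext
    rw [Units.val_mul, Units.val_mul, Jg_val, ti_val]
    exact h.symm
  · intro M N h
    rw [aut_conj, mul_inv_cancel_right]
    congr 1
    rw [phA_app, mul_inv_eq_iff_eq_mul]
    apply Units.ext
    rw [Units.val_mul, Units.val_mul, QQ_val, FA_val]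
    exact h.symm
  · intro N h
    rw [phA_pow, hd]
    have h1 : (FA : MulAut (GL (Fin 3) (GaloisField 2 n))) ^ n = 1 := by
      ext1 M
      apply Units.ext
      rw [FA_pow]
      ext i j
      simp only [Matrix.map_apply, MulAut.one_apply]
      rw [← hcard]
      exact FiniteField.pow_card _
    rw [h1, mul_one]
    congr 1
    apply Units.ext
    rw [QQ_val, h]

end Pool.Agent.Helper25.RK
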